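import Mathlib
import Pool.Agent.P8H49.WT.Stm

/-! # Project WT (helper49): package DUAL -/

set_option autoImplicit false

open UpperHalfPlane MeasureTheory CongruenceSubgroup
open scoped MatrixGroups

namespace Pool.Agent.P8H1.WT

open Pool.Agent.P8H49.WT

/-! ## Orthogonality of the exponentials -/

theorem intexp (k : ℤ) : ∫ x in (0:ℝ)..1, Complex.exp (2 * Real.pi * Complex.I * k * x) =
    if k = 0 then 1 else 0 := by
  split_ifs with h
  · subst h; simp
  · have hc : 2 * (Real.pi : ℂ) * Complex.I * k ≠ 0 := by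
      apply mul_ne_zero Complex.two_pi_I_ne_zero
      exact_mod_cast h
    rw [integral_exp_mul_complex hc]
    have : Complex.exp (2 * Real.pi * Complex.I * k) = 1 :=
      Complex.exp_eq_one_iff.mpr ⟨k, by ring⟩
    simp [this]

theorem orth (S : Finset ℕ) (c : ℕ → ℂ) :
    ∫ x in (0:ℝ)..1, ‖∑ n ∈ S, c n * Complex.exp (-(2 * Real.pi * Complex.I * n * x))‖ ^ 2 =
      ∑ n ∈ S, ‖c n‖ ^ 2 := by
  have h1 : ∀ x : ℝ, ((‖∑ n ∈ S, c n * Complex.exp (-(2 * Real.pi * Complex.I * n * x))‖ ^ 2 : ℝ) : ℂ)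
      = ∑ n ∈ S, ∑ m ∈ S, (c n * (starRingEnd ℂ) (c m)) *
        Complex.exp (2 * Real.pi * Complex.I * ((m - n : ℤ) : ℂ) * x) := by
    intro x
    push_cast
    rw [← Complex.mul_conj', map_sum, Finset.sum_mul_sum]
    refine Finset.sum_congr rfl fun n _ => Finset.sum_congr rfl fun m _ => ?_
    rw [map_mul, ← Complex.exp_conj]
    have : (starRingEnd ℂ) (-(2 * Real.pi * Complex.I * m * x)) = 2 * Real.pi * Complex.I * m * x := by
      have h2 : (starRingEnd ℂ) 2 = 2 := map_ofNat _ 2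
      simp [h2]
    rw [this, mul_mul_mul_comm, ← Complex.exp_add]
    congr 2
    ring
  have h2 : ((∫ x in (0:ℝ)..1,
      ‖∑ n ∈ S, c n * Complex.exp (-(2 * Real.pi * Complex.I * n * x))‖ ^ 2 : ℝ) : ℂ) =
      ((∑ n ∈ S, ‖c n‖ ^ 2 : ℝ) : ℂ) := by
    rw [← intervalIntegral.integral_ofReal]
    simp_rw [h1]
    rw [intervalIntegral.integral_finsetSum]
    · rw [Complex.ofReal_sum]
      refine Finset.sum_congr rfl fun n hn => ?_
      rw [intervalIntegral.integral_finsetSum]
      · simp_rw [intervalIntegral.integral_const_mul, intexp]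
        rw [Finset.sum_eq_single n]
        · simp [Complex.mul_conj']
        · intro m _ hmn
          rw [if_neg, mul_zero]
          intro h
          apply hmn
          have : (m : ℤ) = n := by linarith
          exact_mod_cast this
        · intro h; exact absurd hn h
      · intro m _
        apply Continuous.intervalIntegrable
        fun_prop
    · intro n _
      apply Continuous.intervalIntegrable
      fun_prop
  exact_mod_cast h2

/-! ## The family -/

/-- the combination `∑ b n e(-n x) f n` -/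
noncomputable def FF (S : Finset ℕ) (b : ℕ → ℂ) (f : ℕ → ℍ → ℂ) (x : ℝ) (z : ℍ) : ℂ :=
  ∑ n ∈ S, b n * Complex.exp (-(2 * Real.pi * Complex.I * n * x)) * f n z

theorem cont_of_hol {f : ℍ → ℂ} (h : Hol f) : Continuous f := by
  have h1 : Continuous fun z : ℍ => (fun w : ℂ => f (ofComplex w)) (z : ℂ) :=
    (h.continuousOn).comp_continuous continuous_coe (fun z => z.im_pos)
  refine h1.congr fun z => ?_
  simp only [ofComplex_apply]

theorem FF_law {N : ℕ} {χ : DirichletCharacter ℂ N} {S : Finset ℕ} {f : ℕ → ℍ → ℂ} (b : ℕ → ℂ)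
    (hf : ∀ n ∈ S, Law N χ (f n)) (x : ℝ) : Law N χ (FF S b f x) := by
  intro γ hγ z
  unfold FF
  rw [Finset.mul_sum]
  refine Finset.sum_congr rfl fun n hn => ?_
  rw [hf n hn γ hγ z]
  ring

theorem FF_hol {S : Finset ℕ} {f : ℕ → ℍ → ℂ} (b : ℕ → ℂ)
    (hf : ∀ n ∈ S, Hol (f n)) (x : ℝ) : Hol (FF S b f x) := by
  unfold Hol FF
  apply DifferentiableOn.fun_sum
  intro n hn
  exact (hf n hn).const_mul _

theorem FF_cont {S : Finset ℕ} {f : ℕ → ℍ → ℂ} (b : ℕ → ℂ)
    (hf : ∀ n ∈ S, Continuous (f n)) :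
    Continuous fun p : ℝ × ℍ => FF S b f p.1 p.2 := by
  unfold FF
  apply continuous_finsetSum
  intro n hn
  have := hf n hn
  fun_prop

theorem smul_cont (g : SL(2, ℤ)) : Continuous fun z : ℍ => g • z :=
  continuous_const_smul (g : GL (Fin 2) ℝ)

theorem G_cont {S : Finset ℕ} {f : ℕ → ℍ → ℂ} (b : ℕ → ℂ)
    (hf : ∀ n ∈ S, Continuous (f n)) (g : SL(2, ℤ)) :
    Continuous fun p : ℝ × ℍ => G (FF S b f p.1) (g • p.2) := by
  unfold G
  have h1 : Continuous fun p : ℝ × ℍ => FF S b f p.1 (g • p.2) :=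
    (FF_cont b hf).comp (continuous_fst.prodMk ((smul_cont g).comp continuous_snd))
  have h2 : Continuous fun p : ℝ × ℍ => ((g • p.2 : ℍ).im : ℝ) :=
    UpperHalfPlane.continuous_im.comp ((smul_cont g).comp continuous_snd)
  refine (h1.norm.pow 2).mul ?_
  exact h2.rpow_const fun p => Or.inr (by norm_num)

/-- orthogonality for `G` -/
theorem lint_G (S : Finset ℕ) (f : ℕ → ℍ → ℂ) (b : ℕ → ℂ) (w : ℍ) :
    ∫⁻ x in Set.Ioc (0:ℝ) 1, ENNReal.ofReal (G (FF S b f x) w) =
      ∑ n ∈ S, ENNReal.ofReal (‖b n‖ ^ 2) * ENNReal.ofReal (G (f n) w) := by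
  have hw : 0 ≤ w.im ^ (3 / 2 : ℝ) := Real.rpow_nonneg w.im_pos.le _
  have hF : ∀ x : ℝ, FF S b f x w =
      ∑ n ∈ S, (b n * f n w) * Complex.exp (-(2 * Real.pi * Complex.I * n * x)) := by
    intro x
    unfold FF
    refine Finset.sum_congr rfl fun n _ => by ring
  have hint : IntervalIntegrable (fun x : ℝ => ‖FF S b f x w‖ ^ 2 * w.im ^ (3 / 2 : ℝ)) volume 0 1 := by
    apply Continuous.intervalIntegrable
    unfold FF
    fun_prop
  rw [← ofReal_integral_eq_lintegral_ofReal]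
  · rw [← intervalIntegral.integral_of_le zero_le_one]
    unfold G
    rw [intervalIntegral.integral_mul_const]
    simp_rw [hF]
    rw [orth, Finset.sum_mul, ENNReal.ofReal_sum_of_nonneg (fun n _ => by positivity)]
    refine Finset.sum_congr rfl fun n _ => ?_
    rw [← ENNReal.ofReal_mul (by positivity)]
    congr 1
    rw [norm_mul]
    ring
  · exact (intervalIntegrable_iff_integrableOn_Ioc_of_le zero_le_one).mp hint
  · exact Filter.Eventually.of_forall fun x => mul_nonneg (by positivity) hw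

/-- Tonelli -/
theorem lint_nrm (N : ℕ) (S : Finset ℕ) (f : ℕ → ℍ → ℂ) (b : ℕ → ℂ)
    (hf : ∀ n ∈ S, Continuous (f n)) :
    ∫⁻ x in Set.Ioc (0:ℝ) 1, nrm N (FF S b f x) =
      ∑ n ∈ S, ENNReal.ofReal (‖b n‖ ^ 2) * nrm N (f n) := by
  have hmeas : ∀ g : SL(2, ℤ), Measurable fun p : ℝ × ℍ =>
      ENNReal.ofReal (G (FF S b f p.1) (g • p.2)) := fun g =>
    ENNReal.measurable_ofReal.comp (G_cont b hf g).measurable
  have hmn : ∀ n ∈ S, ∀ g : SL(2, ℤ), Measurable fun z : ℍ =>
      ENNReal.ofReal (G (f n) (g • z)) := by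
    intro n hn g
    apply ENNReal.measurable_ofReal.comp
    apply Continuous.measurable
    unfold G
    refine ((((hf n hn).comp (smul_cont g)).norm).pow 2).mul ?_
    exact (UpperHalfPlane.continuous_im.comp (smul_cont g)).rpow_const
      fun p => Or.inr (by norm_num)
  have : Countable SL(2, ℤ) := by
    have : Countable (Matrix (Fin 2) (Fin 2) ℤ) := inferInstanceAs (Countable (Fin 2 → Fin 2 → ℤ))
    exact Subtype.countable
  have : Countable (SL(2, ℤ) ⧸ Gamma0 N) := Quotient.countable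
  unfold nrm
  rw [lintegral_tsum]
  · have : ∀ q : SL(2, ℤ) ⧸ Gamma0 N,
        ∫⁻ x in Set.Ioc (0:ℝ) 1, ∫⁻ z in ModularGroup.fd,
          ENNReal.ofReal (G (FF S b f x) (q.out⁻¹ • z)) =
        ∑ n ∈ S, ENNReal.ofReal (‖b n‖ ^ 2) *
          ∫⁻ z in ModularGroup.fd, ENNReal.ofReal (G (f n) (q.out⁻¹ • z)) := by
      intro q
      rw [lintegral_lintegral_swap ((hmeas q.out⁻¹).aemeasurable)]
      simp_rw [lint_G]
      rw [lintegral_finsetSum']
      · refine Finset.sum_congr rfl fun n hn => ?_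
        rw [lintegral_const_mul _ (hmn n hn _)]
      · intro n hn
        exact ((hmn n hn _).const_mul _).aemeasurable
    simp_rw [this]
    rw [Summable.tsum_finsetSum (fun _ _ => ENNReal.summable)]
    refine Finset.sum_congr rfl fun n _ => ?_
    rw [ENNReal.tsum_mul_left]
  · intro q
    exact ((hmeas q.out⁻¹).lintegral_prod_right').aemeasurable

theorem U_cont {y : ℝ} (hy : 0 < y) : Continuous fun x : ℝ => U x y := by
  unfold U
  refine continuous_const.add (continuous_finsetSum _ fun c hc => continuous_finsetSum _ fun d _ => ?_)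
  refine Continuous.div continuous_const (by fun_prop) fun x => ?_
  have hc1 : 1 ≤ c := (Finset.mem_Icc.mp hc).1
  have : (0 : ℝ) < c := by exact_mod_cast hc1
  positivity

theorem U_nonneg {y : ℝ} (hy : 0 < y) (x : ℝ) : 0 ≤ U x y := by
  unfold U
  refine add_nonneg hy.le (Finset.sum_nonneg fun c _ => Finset.sum_nonneg fun d _ => ?_)
  positivity

/-- arithmetic and geometric mean -/
theorem amgm {F u : ℝ} (hu : 0 ≤ u) {v : ENNReal}
    (h : ENNReal.ofReal (F ^ 2) ≤ ENNReal.ofReal u * v) :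
    2 * ENNReal.ofReal F ≤ ENNReal.ofReal u + v := by
  by_cases hv : v = ⊤
  · rw [hv]; simp
  · obtain ⟨v', hv0, rfl⟩ : ∃ v' : ℝ, 0 ≤ v' ∧ v = ENNReal.ofReal v' :=
      ⟨v.toReal, ENNReal.toReal_nonneg, (ENNReal.ofReal_toReal hv).symm⟩
    rw [← ENNReal.ofReal_mul hu, ENNReal.ofReal_le_ofReal_iff (mul_nonneg hu hv0)] at h
    have h2 : (2 : ENNReal) = ENNReal.ofReal 2 := by simp
    rw [h2, ← ENNReal.ofReal_mul (by norm_num), ← ENNReal.ofReal_add hu hv0]
    apply ENNReal.ofReal_le_ofReal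
    apply le_of_sq_le_sq _ (by positivity)
    nlinarith [sq_nonneg (u - v')]

/-- the point `x + i y` -/
noncomputable def zp (y : ℝ) (hy : 0 < y) (x : ℝ) : ℍ := ⟨x + y * Complex.I, by simpa using hy⟩

theorem zp_eq {y : ℝ} (hy : 0 < y) (x : ℝ) : ofComplex ((x : ℂ) + y * Complex.I) = zp y hy x :=
  ofComplex_apply_of_im_pos _

theorem zp_re {y : ℝ} (hy : 0 < y) (x : ℝ) : (zp y hy x).re = x := by
  show ((x : ℂ) + y * Complex.I).re = x
  simp

theorem zp_im {y : ℝ} (hy : 0 < y) (x : ℝ) : (zp y hy x).im = y := by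
  show ((x : ℂ) + y * Complex.I).im = y
  simp

theorem zp_cont {y : ℝ} (hy : 0 < y) : Continuous (zp y hy) := by
  rw [UpperHalfPlane.isEmbedding_coe.continuous_iff]
  show Continuous fun x : ℝ => (x : ℂ) + y * Complex.I
  fun_prop

theorem F_zp_cont {y : ℝ} (hy : 0 < y) {S : Finset ℕ} {f : ℕ → ℍ → ℂ} (b : ℕ → ℂ)
    (hf : ∀ n ∈ S, Continuous (f n)) : Continuous fun x : ℝ => FF S b f x (zp y hy x) := by
  unfold FF
  apply continuous_finsetSum
  intro n hn
  exact (by fun_prop : Continuous fun x : ℝ => b n *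
        Complex.exp (-(2 * Real.pi * Complex.I * n * x))).mul ((hf n hn).comp (zp_cont hy))

theorem dual : S_INV → S_HOL → S_COF → S_PTW → S_HTB → S_DUAL := by
  intro hINV hHOL hCOF hPTW hHTB N χ hN h4 S f a hf y hy hy1
  have hhol : ∀ n ∈ S, Hol (f n) := fun n hn => hHOL _ _ (hf n hn).1.expansion
  have hcont : ∀ n ∈ S, Continuous (f n) := fun n hn => cont_of_hol (hhol n hn)
  set b : ℕ → ℂ := fun n => Complex.exp (-(2 * Real.pi * n * y)) * (starRingEnd ℂ) (a n n) with hb
  set S₀ : ℝ := ∑ n ∈ S, ‖a n n‖ ^ 2 * Real.exp (-(4 * Real.pi * n * y)) with hS₀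
  have hS₀0 : 0 ≤ S₀ := Finset.sum_nonneg fun n _ => by positivity
  have hexp : ∀ n : ℕ, Complex.exp (-(2 * Real.pi * n * y)) =
      ((Real.exp (-(2 * Real.pi * n * y)) : ℝ) : ℂ) := by
    intro n
    push_cast
    rfl
  have hexp2 : ∀ n : ℕ, Real.exp (-(2 * Real.pi * n * y)) ^ 2 = Real.exp (-(4 * Real.pi * n * y)) := by
    intro n
    rw [← Real.exp_nat_mul]
    congr 1
    push_cast
    ring
  have hbn : ∀ n, ‖b n‖ ^ 2 = ‖a n n‖ ^ 2 * Real.exp (-(4 * Real.pi * n * y)) := by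
    intro n
    rw [hb]
    simp only
    rw [norm_mul, RCLike.norm_conj, hexp, Complex.norm_real, Real.norm_of_nonneg (Real.exp_nonneg _),
      mul_pow, hexp2]
    ring
  have h1 : ∫ x in (0:ℝ)..1, FF S b f x (zp y hy x) = (S₀ : ℂ) := by
    unfold FF
    rw [intervalIntegral.integral_finsetSum]
    · rw [hS₀, Complex.ofReal_sum]
      refine Finset.sum_congr rfl fun n hn => ?_
      have h2 := hCOF (f n) (a n) (hf n hn).1.expansion y hy n
      have h3 : ∀ x : ℝ, b n * Complex.exp (-(2 * Real.pi * Complex.I * n * x)) * f n (zp y hy x) =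
          b n * (f n (ofComplex (x + y * Complex.I)) *
            Complex.exp (-(2 * Real.pi * Complex.I * n * x))) := by
        intro x
        rw [zp_eq hy]
        ring
      simp_rw [h3]
      rw [intervalIntegral.integral_const_mul, h2, hb]
      simp only
      rw [hexp, Complex.ofReal_mul, Complex.ofReal_pow, ← hexp2, Complex.ofReal_pow,
        ← Complex.mul_conj']
      ring
    · intro n hn
      apply Continuous.intervalIntegrable
      exact (by fun_prop : Continuous fun x : ℝ => b n *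
        Complex.exp (-(2 * Real.pi * Complex.I * n * x))).mul ((hcont n hn).comp (zp_cont hy))
  set u : ℝ → ℝ := fun x => 200 * y ^ (-(3 / 2) : ℝ) * U x y with hu
  have hu0 : ∀ x, 0 ≤ u x := fun x => mul_nonneg (by positivity) (U_nonneg hy x)
  have huc : Continuous u := continuous_const.mul (U_cont hy)
  have h2 : ∀ x ∈ Set.Ioc (0:ℝ) 1, 2 * ENNReal.ofReal ‖FF S b f x (zp y hy x)‖ ≤
      ENNReal.ofReal (u x) + nrm N (FF S b f x) := by
    intro x hx
    apply amgm (hu0 x)
    obtain ⟨γ, hγ⟩ := ModularGroup.exists_smul_mem_fd (zp y hy x)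
    have h3 := hPTW N (FF S b f x) hN (FF_hol b hhol x) (hINV N χ _ hN h4
      (FF_law b (fun n hn => (hf n hn).1.law) x)) (zp y hy x) γ hγ
    have h5 := hHTB (zp y hy x) (by rw [zp_re]; exact hx.1.le) (by rw [zp_re]; exact hx.2)
      (by rw [zp_im]; exact hy1) γ hγ
    rw [zp_re, zp_im] at h5
    have h6 : ENNReal.ofReal (G (FF S b f x) (zp y hy x)) ≤
        ENNReal.ofReal (200 * U x y) * nrm N (FF S b f x) := by
      refine h3.trans ?_
      gcongr
    have h7 : ‖FF S b f x (zp y hy x)‖ ^ 2 = y ^ (-(3 / 2) : ℝ) * G (FF S b f x) (zp y hy x) := by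
      unfold G
      rw [zp_im, mul_left_comm, ← Real.rpow_add hy]
      norm_num
    rw [h7, ENNReal.ofReal_mul (by positivity)]
    have h8 : u x = y ^ (-(3 / 2) : ℝ) * (200 * U x y) := by rw [hu]; ring
    rw [h8, ENNReal.ofReal_mul (by positivity), mul_assoc]
    gcongr
  have h3 : ENNReal.ofReal S₀ ≤ ∫⁻ x in Set.Ioc (0:ℝ) 1, ENNReal.ofReal ‖FF S b f x (zp y hy x)‖ := by
    have h4 := enorm_integral_le_lintegral_enorm (μ := volume.restrict (Set.Ioc (0:ℝ) 1))
      (fun x : ℝ => FF S b f x (zp y hy x))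
    rw [← intervalIntegral.integral_of_le zero_le_one, h1, ← ofReal_norm, Complex.norm_real,
      Real.norm_of_nonneg hS₀0] at h4
    refine h4.trans (le_of_eq ?_)
    refine lintegral_congr fun x => ?_
    rw [← ofReal_norm]
  have h4 : ∫⁻ x in Set.Ioc (0:ℝ) 1, nrm N (FF S b f x) ≤ ENNReal.ofReal S₀ := by
    rw [lint_nrm N S f b hcont, hS₀, ENNReal.ofReal_sum_of_nonneg (fun n _ => by positivity)]
    refine Finset.sum_le_sum fun n hn => ?_
    rw [hbn]
    calc _ ≤ ENNReal.ofReal (‖a n n‖ ^ 2 * Real.exp (-(4 * Real.pi * n * y))) * 1 := by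
          gcongr
          exact (hf n hn).2
      _ = _ := mul_one _
  have h5 : 2 * ENNReal.ofReal S₀ ≤
      (∫⁻ x in Set.Ioc (0:ℝ) 1, ENNReal.ofReal (u x)) + ENNReal.ofReal S₀ := by
    calc 2 * ENNReal.ofReal S₀ ≤ 2 * ∫⁻ x in Set.Ioc (0:ℝ) 1, ENNReal.ofReal ‖FF S b f x (zp y hy x)‖ := by
          gcongr
      _ = ∫⁻ x in Set.Ioc (0:ℝ) 1, 2 * ENNReal.ofReal ‖FF S b f x (zp y hy x)‖ := by
          rw [lintegral_const_mul' _ _ (by simp)]
      _ ≤ ∫⁻ x in Set.Ioc (0:ℝ) 1, (ENNReal.ofReal (u x) + nrm N (FF S b f x)) :=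
          setLIntegral_mono' measurableSet_Ioc h2
      _ = (∫⁻ x in Set.Ioc (0:ℝ) 1, ENNReal.ofReal (u x)) +
            ∫⁻ x in Set.Ioc (0:ℝ) 1, nrm N (FF S b f x) :=
          lintegral_add_left (ENNReal.measurable_ofReal.comp huc.measurable) _
      _ ≤ _ := by gcongr
  have h6 : ∫⁻ x in Set.Ioc (0:ℝ) 1, ENNReal.ofReal (u x) =
      ENNReal.ofReal (200 * y ^ (-(3 / 2) : ℝ) * ∫ x in (0 : ℝ)..1, U x y) := by
    rw [← ofReal_integral_eq_lintegral_ofReal]
    · rw [← intervalIntegral.integral_of_le zero_le_one, hu, intervalIntegral.integral_const_mul]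
    · exact (intervalIntegrable_iff_integrableOn_Ioc_of_le zero_le_one).mp
        (huc.intervalIntegrable _ _)
    · exact Filter.Eventually.of_forall hu0
  rw [h6, two_mul, ENNReal.add_le_add_iff_right ENNReal.ofReal_ne_top] at h5
  have h7 : 0 ≤ 200 * y ^ (-(3 / 2) : ℝ) * ∫ x in (0 : ℝ)..1, U x y := by
    apply mul_nonneg (by positivity)
    exact intervalIntegral.integral_nonneg zero_le_one fun x _ => U_nonneg hy x
  exact (ENNReal.ofReal_le_ofReal_iff h7).mp h5

end Pool.Agent.P8H1.WT
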